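import Mathlib
import Pool.Agent.H247R2.Warren

set_option autoImplicit false

/-!
# The growth rate of the number of configurations without six points in convex position

`log (c_6 n) = Θ(n log n)`.

* Lower bound: `p + 1` points on a bottom row, `m + 1` points on a middle row and `p` points on a top
  row, placed such that the midpoints of the `i`-th bottom and the `i`-th top point lie at `p`
  arbitrary positions between the middle points, while the midpoints of all other bottom-top pairs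
  lie outside the middle row. No six of these points are in convex position.
* Upper bound: an elementary Warren-type bound for the number of sign vectors of polynomials.
-/

namespace Pool.Agent.Results.MP_708b53_co.GrowthRate

/-- The Euclidean plane. -/
abbrev Plane : Type := EuclideanSpace ℝ (Fin 2)

/-- Twice the signed area of the triangle `a b c`. -/
def det3 (a b c : Plane) : ℝ := (b 0 - a 0) * (c 1 - a 1) - (b 1 - a 1) * (c 0 - a 0)

/-- The orientation of an ordered triple: `1` counterclockwise, `-1` clockwise, `0` collinear. -/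
noncomputable def orient (a b c : Plane) : SignType := SignType.sign (det3 a b c)

/-- Two configurations are equivalent (have the same order type): some bijection preserves the
orientation of every ordered triple. -/
def SameOrderType (S T : Finset Plane) : Prop :=
  ∃ e : S ≃ T, ∀ a b c : S,
    orient (e a : Plane) (e b : Plane) (e c : Plane) = orient (a : Plane) (b : Plane) (c : Plane)

/-- Equivalence of configurations is an equivalence relation. -/
theorem sameOrderType_equivalence : Equivalence SameOrderType where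
  refl S := ⟨Equiv.refl _, fun _ _ _ => rfl⟩
  symm := by
    rintro S T ⟨e, he⟩
    refine ⟨e.symm, fun a b c => ?_⟩
    have := he (e.symm a) (e.symm b) (e.symm c)
    simp only [Equiv.apply_symm_apply] at this
    exact this.symm
  trans := by
    rintro S T U ⟨e, he⟩ ⟨f, hf⟩
    exact ⟨e.trans f, fun a b c => (hf _ _ _).trans (he _ _ _)⟩

/-- The setoid of configurations up to equivalence. -/
def orderTypeSetoid : Setoid (Finset Plane) := ⟨SameOrderType, sameOrderType_equivalence⟩

/-- Convex position: no three distinct points are collinear, and every point is a vertex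
(extreme point) of the convex hull. -/
def ConvexPosition (S : Finset Plane) : Prop :=
  (∀ a ∈ S, ∀ b ∈ S, ∀ c ∈ S, a ≠ b → b ≠ c → a ≠ c → ¬ Collinear ℝ ({a, b, c} : Set Plane)) ∧
    ∀ p ∈ S, p ∈ (convexHull ℝ (S : Set Plane)).extremePoints ℝ

/-- `MAXCONVEX(S)`: the largest size of a subset of `S` in convex position. -/
noncomputable def maxConvex (S : Finset Plane) : ℕ :=
  sSup {n | ∃ U : Finset Plane, U ⊆ S ∧ ConvexPosition U ∧ n = U.card}

/-- The equivalence classes of the `n`-point configurations `S` with `MAXCONVEX(S) < k`. -/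
def classes (k n : ℕ) : Set (Quotient orderTypeSetoid) :=
  {q | ∃ S : Finset Plane, S.card = n ∧ maxConvex S < k ∧ Quotient.mk orderTypeSetoid S = q}

/-- `c_k(n)`: the number of equivalence classes of `n`-point configurations with
`MAXCONVEX < k`. -/
noncomputable def c (k n : ℕ) : ℕ := (classes k n).ncard

/-! ### The upper bound -/

open MvPolynomial in
theorem card_classes_le (k n : ℕ) (A : Finset (Quotient orderTypeSetoid))
    (hA : ∀ q ∈ A, q ∈ classes k n) : A.card ≤ (4 * (n ^ 3 * 2) + 1) ^ (n * 2) := by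
  classical
  have h1 : ∀ q : A, ∃ S : Finset Plane, S.card = n ∧ Quotient.mk orderTypeSetoid S = q := by
    intro q
    obtain ⟨S, hS, -, hq⟩ := hA q q.2
    exact ⟨S, hS, hq⟩
  choose S hS hSq using h1
  let e : ∀ q : A, Fin n ≃ S q := fun q => (Finset.equivFinOfCardEq (hS q)).symm
  let τ : A → (Fin n × Fin n × Fin n → SignType) := fun q t =>
    orient (e q t.1 : Plane) (e q t.2.1 : Plane) (e q t.2.2 : Plane)
  have hτ : Function.Injective τ := by
    intro q q' h
    apply Subtype.ext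
    rw [← hSq q, ← hSq q']
    apply Quotient.sound
    refine ⟨(e q).symm.trans (e q'), fun a b c => ?_⟩
    have := congrFun h ((e q).symm a, (e q).symm b, (e q).symm c)
    simp only [τ, Equiv.apply_symm_apply] at this
    exact this.symm
  let f : Fin n × Fin n × Fin n → MvPolynomial (Fin n × Fin 2) ℝ := fun t =>
    (X (t.2.1, 0) - X (t.1, 0)) * (X (t.2.2, 1) - X (t.1, 1)) -
      (X (t.2.1, 1) - X (t.1, 1)) * (X (t.2.2, 0) - X (t.1, 0))
  have hXX : ∀ u v : Fin n × Fin 2, (X u - X v : MvPolynomial (Fin n × Fin 2) ℝ).totalDegree ≤ 1 := by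
    intro u v
    refine (totalDegree_sub _ _).trans ?_
    rw [totalDegree_X, totalDegree_X]
    exact le_of_eq (max_self 1)
  have hf : ∀ t, (f t).totalDegree ≤ 2 := by
    intro t
    refine (totalDegree_sub _ _).trans (max_le ?_ ?_)
    · refine (totalDegree_mul _ _).trans ?_
      have := hXX (t.2.1, 0) (t.1, 0)
      have := hXX (t.2.2, 1) (t.1, 1)
      omega
    · refine (totalDegree_mul _ _).trans ?_
      have := hXX (t.2.1, 1) (t.1, 1)
      have := hXX (t.2.2, 0) (t.1, 0)
      omega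
  have := Pool.Agent.H247R2.Warren.sign_count f 2 hf (Finset.univ.image τ) (by
    intro σ hσ
    rw [Finset.mem_image] at hσ
    obtain ⟨q, -, rfl⟩ := hσ
    refine ⟨fun v => (e q v.1 : Plane) v.2, fun t => ?_⟩
    simp only [f, τ, orient, det3, map_sub, map_mul, eval_X])
  rw [Finset.card_image_of_injective _ hτ] at this
  simp only [Finset.card_univ, Fintype.card_coe, Fintype.card_prod, Fintype.card_fin] at this
  refine this.trans (le_of_eq ?_)
  congr 1
  ring

theorem classes_finite (k n : ℕ) : (classes k n).Finite := by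
  by_contra hinf
  obtain ⟨t, ht, htc⟩ := Set.Infinite.exists_subset_card_eq hinf
    ((4 * (n ^ 3 * 2) + 1) ^ (n * 2) + 1)
  have := card_classes_le k n t (fun q hq => ht hq)
  omega

theorem c_le (k n : ℕ) : c k n ≤ (4 * (n ^ 3 * 2) + 1) ^ (n * 2) := by
  classical
  have hf := classes_finite k n
  have : c k n = hf.toFinset.card := Set.ncard_eq_toFinset_card _ hf
  rw [this]
  exact card_classes_le k n _ (fun q hq => by simpa using hq)

/-! ### Integer points -/

/-- The point with integer coordinates `q`. -/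
noncomputable def P (q : ℤ × ℤ) : Plane := !₂[(q.1 : ℝ), (q.2 : ℝ)]

/-- Integer determinant. -/
def idet (a b c : ℤ × ℤ) : ℤ := (b.1 - a.1) * (c.2 - a.2) - (b.2 - a.2) * (c.1 - a.1)

@[simp] theorem P_zero (q : ℤ × ℤ) : (P q) 0 = (q.1 : ℝ) := by simp [P]
@[simp] theorem P_one (q : ℤ × ℤ) : (P q) 1 = (q.2 : ℝ) := by simp [P]

theorem P_injective : Function.Injective P := by
  intro a b h
  have h0 : (P a) 0 = (P b) 0 := by rw [h]
  have h1 : (P a) 1 = (P b) 1 := by rw [h]
  simp only [P_zero, P_one, Int.cast_inj] at h0 h1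
  exact Prod.ext h0 h1

theorem det3_P (a b c : ℤ × ℤ) : det3 (P a) (P b) (P c) = (idet a b c : ℝ) := by
  simp [det3, idet]

section config

variable {p m : ℕ}

/-- the bottom row -/
def bot (m : ℕ) (i : ℕ) : ℤ × ℤ := (-(4 * ((m : ℤ) + 1) * i), 0)
/-- the middle row -/
def mid (k : ℕ) : ℤ × ℤ := (2 * (k : ℤ), 1)
/-- the top row -/
def top (a : Fin p → Fin m) (i : Fin p) : ℤ × ℤ :=
  (4 * ((m : ℤ) + 1) * (i : ℕ) + 2 * (2 * ((a i : ℕ) : ℤ) + 1), 2)

def ZZ (a : Fin p → Fin m) : Finset (ℤ × ℤ) :=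
  (Finset.range (p + 1)).image (bot m) ∪ ((Finset.range (m + 1)).image mid ∪
    Finset.univ.image (top a))

theorem mem_ZZ {a : Fin p → Fin m} {q : ℤ × ℤ} : q ∈ ZZ a ↔
    (∃ i : ℕ, i < p + 1 ∧ q = bot m i) ∨ (∃ k : ℕ, k < m + 1 ∧ q = mid k) ∨
      (∃ i : Fin p, q = top a i) := by
  simp only [ZZ, Finset.mem_union, Finset.mem_image, Finset.mem_range, Finset.mem_univ, true_and,
    eq_comm (a := q)]

theorem bot_mem {a : Fin p → Fin m} {i : ℕ} (h : i < p + 1) : bot m i ∈ ZZ a :=
  mem_ZZ.mpr (Or.inl ⟨i, h, rfl⟩)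
theorem mid_mem {a : Fin p → Fin m} {i : ℕ} (h : i < m + 1) : mid i ∈ ZZ a :=
  mem_ZZ.mpr (Or.inr (Or.inl ⟨i, h, rfl⟩))
theorem top_mem {a : Fin p → Fin m} (i : Fin p) : top a i ∈ ZZ a :=
  mem_ZZ.mpr (Or.inr (Or.inr ⟨i, rfl⟩))

theorem bot_lt {i j : ℕ} : (bot m j).1 < (bot m i).1 ↔ i < j := by
  simp only [bot]
  have h0 : (0 : ℤ) < 4 * ((m : ℤ) + 1) := by positivity
  constructor
  · intro h
    by_contra hcon
    have : (j : ℤ) ≤ i := by exact_mod_cast not_lt.mp hcon
    have := mul_le_mul_of_nonneg_left this h0.le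
    linarith
  · intro h
    have : (i : ℤ) < j := by exact_mod_cast h
    have := mul_lt_mul_of_pos_left this h0
    linarith

theorem top_lt_of {a : Fin p → Fin m} {i j : Fin p} (h : i < j) : (top a i).1 < (top a j).1 := by
  simp only [top]
  have h0 : (0 : ℤ) < 4 * ((m : ℤ) + 1) := by positivity
  have h1 : ((i : ℕ) : ℤ) + 1 ≤ (j : ℕ) := by exact_mod_cast h
  have h2 := mul_le_mul_of_nonneg_left h1 h0.le
  have h3 : ((a i : ℕ) : ℤ) < m := by exact_mod_cast (a i).2
  have h4 : (0 : ℤ) ≤ ((a j : ℕ) : ℤ) := by positivity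
  nlinarith

theorem top_lt {a : Fin p → Fin m} {i j : Fin p} : (top a i).1 < (top a j).1 ↔ i < j := by
  constructor
  · intro h
    by_contra hcon
    rcases (not_lt.mp hcon).lt_or_eq with h1 | h1
    · exact absurd (top_lt_of (a := a) h1) (by omega)
    · subst h1; exact lt_irrefl _ h
  · exact top_lt_of

theorem bot_inj : Function.Injective (bot m) := by
  intro i j h
  rcases lt_trichotomy i j with h1 | h1 | h1
  · have := (bot_lt (m := m)).mpr h1; rw [h] at this; exact absurd this (lt_irrefl _)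
  · exact h1
  · have := (bot_lt (m := m)).mpr h1; rw [h] at this; exact absurd this (lt_irrefl _)

theorem mid_inj : Function.Injective mid := by
  intro i j h
  simp only [mid, Prod.mk.injEq, and_true] at h
  omega

theorem top_inj {a : Fin p → Fin m} : Function.Injective (top a) := by
  intro i j h
  rcases lt_trichotomy i j with h1 | h1 | h1
  · have := (top_lt (a := a)).mpr h1; rw [h] at this; exact absurd this (lt_irrefl _)
  · exact h1
  · have := (top_lt (a := a)).mpr h1; rw [h] at this; exact absurd this (lt_irrefl _)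

theorem card_ZZ (a : Fin p → Fin m) : (ZZ a).card = 2 * p + m + 2 := by
  unfold ZZ
  rw [Finset.card_union_of_disjoint, Finset.card_union_of_disjoint,
    Finset.card_image_of_injective _ bot_inj, Finset.card_image_of_injective _ mid_inj,
    Finset.card_image_of_injective _ top_inj]
  · simp; omega
  · rw [Finset.disjoint_left]
    intro x hx hy
    simp only [Finset.mem_image, Finset.mem_range, Finset.mem_univ, true_and] at hx hy
    obtain ⟨k, -, rfl⟩ := hx
    obtain ⟨i, hi⟩ := hy
    have := congrArg Prod.snd hi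
    simp [top, mid] at this
  · rw [Finset.disjoint_left]
    intro x hx hy
    simp only [Finset.mem_union, Finset.mem_image, Finset.mem_range, Finset.mem_univ,
      true_and] at hx hy
    obtain ⟨k, -, rfl⟩ := hx
    rcases hy with ⟨i, -, hi⟩ | ⟨i, hi⟩
    · have := congrArg Prod.snd hi
      simp [bot, mid] at this
    · have := congrArg Prod.snd hi
      simp [bot, top] at this

theorem ZZ_row {a : Fin p → Fin m} {q : ℤ × ℤ} (h : q ∈ ZZ a) : q.2 = 0 ∨ q.2 = 1 ∨ q.2 = 2 := by
  rcases mem_ZZ.mp h with ⟨i, -, rfl⟩ | ⟨i, -, rfl⟩ | ⟨i, rfl⟩ <;> simp [bot, mid, top]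

theorem ZZ_row0 {a : Fin p → Fin m} {q : ℤ × ℤ} (h : q ∈ ZZ a) (h0 : q.2 = 0) :
    ∃ i : Fin (p + 1), q = bot m i := by
  rcases mem_ZZ.mp h with ⟨i, hi, rfl⟩ | ⟨i, -, rfl⟩ | ⟨i, rfl⟩
  · exact ⟨⟨i, hi⟩, rfl⟩
  · simp [mid] at h0
  · simp [top] at h0

theorem ZZ_row1 {a : Fin p → Fin m} {q : ℤ × ℤ} (h : q ∈ ZZ a) (h0 : q.2 = 1) :
    ∃ i : Fin (m + 1), q = mid i := by
  rcases mem_ZZ.mp h with ⟨i, hi, rfl⟩ | ⟨i, hi, rfl⟩ | ⟨i, rfl⟩
  · simp [bot] at h0
  · exact ⟨⟨i, hi⟩, rfl⟩
  · simp [top] at h0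

theorem ZZ_row2 {a : Fin p → Fin m} {q : ℤ × ℤ} (h : q ∈ ZZ a) (h0 : q.2 = 2) :
    ∃ i : Fin p, q = top a i := by
  rcases mem_ZZ.mp h with ⟨i, hi, rfl⟩ | ⟨i, hi, rfl⟩ | ⟨i, rfl⟩
  · simp [bot] at h0
  · simp [mid] at h0
  · exact ⟨i, rfl⟩

theorem row_of_two {p q r : ℤ × ℤ} (hne : p ≠ q) (h : p.2 = q.2) (hd : idet p q r = 0) :
    r.2 = p.2 := by
  have hx : q.1 - p.1 ≠ 0 := by
    intro h0
    exact hne (Prod.ext (by omega) h)
  have h1 : (q.1 - p.1) * (r.2 - p.2) = 0 := by
    unfold idet at hd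
    rw [show q.2 - p.2 = 0 by omega] at hd
    linarith
  rcases mul_eq_zero.mp h1 with h2 | h2
  · exact absurd h2 hx
  · omega

/-- four distinct collinear points of the configuration lie in one row -/
theorem four_collinear {b : Fin p → Fin m} {q : ℕ → ℤ × ℤ} (hq : ∀ i, i < 4 → q i ∈ ZZ b)
    (hne : ∀ i j, i < 4 → j < 4 → i ≠ j → q i ≠ q j)
    (hd : ∀ i j k, i < 4 → j < 4 → k < 4 → idet (q i) (q j) (q k) = 0) :
    (q 1).2 = (q 0).2 := by
  have hr0 := ZZ_row (hq 0 (by norm_num))
  have hr1 := ZZ_row (hq 1 (by norm_num))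
  have hr2 := ZZ_row (hq 2 (by norm_num))
  have hr3 := ZZ_row (hq 3 (by norm_num))
  obtain ⟨i, j, hi, hj, hij, hr⟩ : ∃ i j, i < 4 ∧ j < 4 ∧ i ≠ j ∧ (q i).2 = (q j).2 := by
    have hpig : (q 0).2 = (q 1).2 ∨ (q 0).2 = (q 2).2 ∨ (q 0).2 = (q 3).2 ∨
        (q 1).2 = (q 2).2 ∨ (q 1).2 = (q 3).2 ∨ (q 2).2 = (q 3).2 := by omega
    rcases hpig with h | h | h | h | h | h
    · exact ⟨0, 1, by norm_num, by norm_num, by norm_num, h⟩
    · exact ⟨0, 2, by norm_num, by norm_num, by norm_num, h⟩
    · exact ⟨0, 3, by norm_num, by norm_num, by norm_num, h⟩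
    · exact ⟨1, 2, by norm_num, by norm_num, by norm_num, h⟩
    · exact ⟨1, 3, by norm_num, by norm_num, by norm_num, h⟩
    · exact ⟨2, 3, by norm_num, by norm_num, by norm_num, h⟩
  have h0 := row_of_two (hne i j hi hj hij) hr (hd i j 0 hi hj (by norm_num))
  have h1 := row_of_two (hne i j hi hj hij) hr (hd i j 1 hi hj (by norm_num))
  omega

theorem sign_eq_zero_iff' {a b : ℤ} (h : SignType.sign a = SignType.sign b) : a = 0 ↔ b = 0 := by
  rw [← sign_eq_zero_iff, h, sign_eq_zero_iff]

theorem sign_pos_iff' {a b : ℤ} (h : SignType.sign a = SignType.sign b) : 0 < a ↔ 0 < b := by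
  rw [← sign_eq_one_iff, h, sign_eq_one_iff]

theorem strictMono_eq_id {N : ℕ} {φ : Fin N → Fin N} (h : StrictMono φ) (i : Fin N) : φ i = i :=
  le_antisymm h.apply_le h.le_apply

/-- an orientation preserving injection between two of the configurations forces equality -/
theorem core (hp : 4 ≤ p) (hm : p < m) (a b : Fin p → Fin m) (g : ℤ × ℤ → ℤ × ℤ)
    (hg : ∀ q ∈ ZZ a, g q ∈ ZZ b) (hinj : ∀ q ∈ ZZ a, ∀ q' ∈ ZZ a, g q = g q' → q = q')
    (ho : ∀ u ∈ ZZ a, ∀ v ∈ ZZ a, ∀ w ∈ ZZ a,
      SignType.sign (idet (g u) (g v) (g w)) = SignType.sign (idet u v w)) : a = b := by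
  have zero_of : ∀ u ∈ ZZ a, ∀ v ∈ ZZ a, ∀ w ∈ ZZ a, idet u v w = 0 →
      idet (g u) (g v) (g w) = 0 := fun u hu v hv w hw h =>
    (sign_eq_zero_iff' (ho u hu v hv w hw)).mpr h
  have ne_of : ∀ u ∈ ZZ a, ∀ v ∈ ZZ a, ∀ w ∈ ZZ a, idet u v w ≠ 0 →
      idet (g u) (g v) (g w) ≠ 0 := fun u hu v hv w hw h h' =>
    h ((sign_eq_zero_iff' (ho u hu v hv w hw)).mp h')
  have same_row : ∀ u v w : ℤ × ℤ, v.2 = u.2 → w.2 = u.2 → idet u v w = 0 := by
    intro u v w h1 h2
    simp only [idet, h1, h2]; ring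
  -- rows go to rows
  have rows : ∀ (N : ℕ) (r : ℕ → ℤ × ℤ), 4 ≤ N → (∀ i, i < N → r i ∈ ZZ a) →
      (∀ i j, i < N → j < N → i ≠ j → r i ≠ r j) → (∀ i, i < N → (r i).2 = (r 0).2) →
      ∀ i, i < N → (g (r i)).2 = (g (r 0)).2 := by
    intro N r hN hr hne hrow i hi
    have h01 : (g (r 1)).2 = (g (r 0)).2 := by
      refine four_collinear (b := b) (q := fun i => g (r i)) (fun i hi => hg _ (hr i (by omega)))
        (fun i j hi hj hij h => hne i j (by omega) (by omega) hij
          (hinj _ (hr i (by omega)) _ (hr j (by omega)) h)) ?_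
      intro i j k hi hj hk
      exact zero_of _ (hr i (by omega)) _ (hr j (by omega)) _ (hr k (by omega))
        (same_row _ _ _ ((hrow j (by omega)).trans (hrow i (by omega)).symm)
          ((hrow k (by omega)).trans (hrow i (by omega)).symm))
    have hne01 : g (r 0) ≠ g (r 1) := fun h => hne 0 1 (by omega) (by omega) (by norm_num)
      (hinj _ (hr 0 (by omega)) _ (hr 1 (by omega)) h)
    exact row_of_two hne01 h01.symm (zero_of _ (hr 0 (by omega)) _ (hr 1 (by omega)) _
      (hr i (by omega)) (same_row _ _ _ (hrow 1 (by omega)) (hrow i (by omega))))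
  have rowB : ∀ i, i < p + 1 → (g (bot m i)).2 = (g (bot m 0)).2 :=
    rows (p + 1) (bot m) (by omega) (fun i hi => bot_mem hi) (fun i j _ _ hij h => hij (bot_inj h))
      (fun i _ => rfl)
  have rowM : ∀ i, i < m + 1 → (g (mid i)).2 = (g (mid 0)).2 :=
    rows (m + 1) mid (by omega) (fun i hi => mid_mem hi) (fun i j _ _ hij h => hij (mid_inj h))
      (fun i _ => rfl)
  let T : ℕ → ℤ × ℤ := fun i => if h : i < p then top a ⟨i, h⟩ else (0, 0)
  have hT : ∀ (i : ℕ) (h : i < p), T i = top a ⟨i, h⟩ := fun i h => by simp [T, h]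
  have hT0 : T 0 = top a ⟨0, by omega⟩ := hT 0 (by omega)
  have rowT' : ∀ i, i < p → (g (T i)).2 = (g (T 0)).2 := by
    refine rows p T hp (fun i hi => by rw [hT i hi]; exact top_mem _) ?_ ?_
    · intro i j hi hj hij h
      rw [hT i hi, hT j hj] at h
      have := congrArg Fin.val (top_inj h)
      exact hij this
    · intro i hi
      rw [hT i hi, hT0]
      rfl
  have rowT : ∀ i : Fin p, (g (top a i)).2 = (g (T 0)).2 := by
    intro i
    have := rowT' i i.2
    rwa [hT i i.2] at this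
  -- different rows
  have dBM : (g (mid 0)).2 ≠ (g (bot m 0)).2 := by
    intro h
    refine ne_of _ (bot_mem (i := 0) (by omega)) _ (bot_mem (i := 1) (by omega)) _
      (mid_mem (i := 0) (by omega)) ?_ (same_row _ _ _ (rowB 1 (by omega)) h)
    simp [idet, bot, mid]; positivity
  have dBT : (g (T 0)).2 ≠ (g (bot m 0)).2 := by
    intro h
    rw [hT0] at h
    refine ne_of _ (bot_mem (i := 0) (by omega)) _ (bot_mem (i := 1) (by omega)) _
      (top_mem ⟨0, by omega⟩) ?_ (same_row _ _ _ (rowB 1 (by omega)) h)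
    simp [idet, bot, top]; positivity
  have dMT : (g (T 0)).2 ≠ (g (mid 0)).2 := by
    intro h
    rw [hT0] at h
    refine ne_of _ (mid_mem (i := 0) (by omega)) _ (mid_mem (i := 1) (by omega)) _
      (top_mem ⟨0, by omega⟩) ?_ (same_row _ _ _ (rowM 1 (by omega)) h)
    simp [idet, mid, top]
  have vB := ZZ_row (hg _ (bot_mem (a := a) (i := 0) (by omega)))
  have vM := ZZ_row (hg _ (mid_mem (a := a) (i := 0) (by omega)))
  have vT : (g (T 0)).2 = 0 ∨ (g (T 0)).2 = 1 ∨ (g (T 0)).2 = 2 := by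
    rw [hT0]; exact ZZ_row (hg _ (top_mem _))
  -- the middle row goes to the middle row
  have gmem : ∀ k : Fin (m + 1), g (mid k) ∈ ZZ b := fun k => hg _ (mid_mem k.2)
  have gbem : ∀ k : Fin (p + 1), g (bot m k) ∈ ZZ b := fun k => hg _ (bot_mem k.2)
  have hM1 : (g (mid 0)).2 = 1 := by
    rcases vM with h | h | h
    · exfalso
      have : ∀ k : Fin (m + 1), ∃ i : Fin (p + 1), g (mid k) = bot m i := fun k =>
        ZZ_row0 (gmem k) ((rowM k k.2).trans h)
      choose φ hφ using this
      have hφi : Function.Injective φ := by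
        intro k l hkl
        have h2 : g (mid k) = g (mid l) := by rw [hφ k, hφ l, hkl]
        exact Fin.ext (mid_inj (hinj _ (mid_mem k.2) _ (mid_mem l.2) h2))
      have := Fintype.card_le_of_injective φ hφi
      simp at this
      omega
    · exact h
    · exfalso
      have : ∀ k : Fin (m + 1), ∃ i : Fin p, g (mid k) = top b i := fun k =>
        ZZ_row2 (gmem k) ((rowM k k.2).trans h)
      choose φ hφ using this
      have hφi : Function.Injective φ := by
        intro k l hkl
        have h2 : g (mid k) = g (mid l) := by rw [hφ k, hφ l, hkl]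
        exact Fin.ext (mid_inj (hinj _ (mid_mem k.2) _ (mid_mem l.2) h2))
      have := Fintype.card_le_of_injective φ hφi
      simp at this
      omega
  have hB0 : (g (bot m 0)).2 = 0 := by
    rcases vB with h | h | h
    · exact h
    · omega
    · exfalso
      have : ∀ k : Fin (p + 1), ∃ i : Fin p, g (bot m k) = top b i := fun k =>
        ZZ_row2 (gbem k) ((rowB k k.2).trans h)
      choose φ hφ using this
      have hφi : Function.Injective φ := by
        intro k l hkl
        have h2 : g (bot m k) = g (bot m l) := by rw [hφ k, hφ l, hkl]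
        exact Fin.ext (bot_inj (hinj _ (bot_mem k.2) _ (bot_mem l.2) h2))
      have := Fintype.card_le_of_injective φ hφi
      simp at this
  have hT2 : (g (T 0)).2 = 2 := by omega
  -- the index maps
  have e0 : ∀ k : Fin (p + 1), ∃ i : Fin (p + 1), g (bot m k) = bot m i := fun k =>
    ZZ_row0 (gbem k) ((rowB k k.2).trans hB0)
  have e1 : ∀ k : Fin (m + 1), ∃ i : Fin (m + 1), g (mid k) = mid i := fun k =>
    ZZ_row1 (gmem k) ((rowM k k.2).trans hM1)
  have e2 : ∀ k : Fin p, ∃ i : Fin p, g (top a k) = top b i := fun k =>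
    ZZ_row2 (hg _ (top_mem k)) ((rowT k).trans hT2)
  choose φ0 hφ0 using e0
  choose φ1 hφ1 using e1
  choose φ2 hφ2 using e2
  have idet_row : ∀ u v w : ℤ × ℤ, v.2 = u.2 → idet u v w = (v.1 - u.1) * (w.2 - u.2) := by
    intro u v w h
    simp only [idet, h]; ring
  have m0 : StrictMono φ0 := by
    intro i j hij
    have h1 := sign_pos_iff' (ho _ (bot_mem j.2) _ (bot_mem i.2) _ (mid_mem (i := 0) (by omega)))
    rw [idet_row (bot m j) (bot m i) (mid 0) rfl,
      idet_row (g (bot m j)) (g (bot m i)) (g (mid 0)) ((rowB i i.2).trans (rowB j j.2).symm),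
      hφ0 i, hφ0 j, hM1] at h1
    simp only [bot, mid, sub_zero, mul_one] at h1
    have h2 := (bot_lt (m := m)).mpr (show (i : ℕ) < j from hij)
    have h3 : (bot m (φ0 j)).1 < (bot m (φ0 i)).1 := by
      simp only [bot] at h2 ⊢
      have := h1.mpr (by linarith)
      linarith
    exact (bot_lt (m := m)).mp h3
  have m1 : StrictMono φ1 := by
    intro i j hij
    have h1 := sign_pos_iff' (ho _ (mid_mem j.2) _ (mid_mem i.2) _ (bot_mem (i := 0) (by omega)))
    rw [idet_row (mid j) (mid i) (bot m 0) rfl,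
      idet_row (g (mid j)) (g (mid i)) (g (bot m 0)) ((rowM i i.2).trans (rowM j j.2).symm),
      hφ1 i, hφ1 j, hB0] at h1
    simp only [bot, mid] at h1
    have h2 : ((i : ℕ) : ℤ) < (j : ℕ) := by exact_mod_cast hij
    have := h1.mpr (by linarith)
    have h3 : ((φ1 i : ℕ) : ℤ) < (φ1 j : ℕ) := by linarith
    exact_mod_cast h3
  have m2 : StrictMono φ2 := by
    intro i j hij
    have h1 := sign_pos_iff' (ho _ (top_mem j) _ (top_mem i) _ (bot_mem (i := 0) (by omega)))
    rw [idet_row (top a j) (top a i) (bot m 0) rfl,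
      idet_row (g (top a j)) (g (top a i)) (g (bot m 0)) ((rowT i).trans (rowT j).symm),
      hφ2 i, hφ2 j, hB0] at h1
    have h2 := (top_lt (a := a)).mpr hij
    have e : ∀ (c : Fin p → Fin m) (k : Fin p), (top c k).2 = 2 := fun c k => rfl
    rw [e, e] at h1
    simp only [bot] at h1
    have h4 := h1.mpr (by nlinarith)
    exact (top_lt (a := b)).mp (by linarith)
  -- conclusion
  funext i
  apply Fin.ext
  have fix0 : g (bot m i) = bot m i := by
    have := hφ0 ⟨i, by omega⟩
    rw [strictMono_eq_id m0] at this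
    exact this
  have fix2 : g (top a i) = top b i := by
    have := hφ2 i
    rwa [strictMono_eq_id m2] at this
  have fix1 : ∀ k : Fin (m + 1), g (mid k) = mid k := by
    intro k
    have := hφ1 k
    rwa [strictMono_eq_id m1] at this
  have key : ∀ k : ℕ, k < m + 1 → ((0 : ℤ) < 2 * (2 * ((b i : ℕ) : ℤ) + 1) - 4 * k ↔
      (0 : ℤ) < 2 * (2 * ((a i : ℕ) : ℤ) + 1) - 4 * k) := by
    intro k hk
    have h1 := sign_pos_iff' (ho _ (bot_mem (i := i) (by omega)) _ (top_mem i) _
      (mid_mem (i := k) hk))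
    rw [fix0, fix2, fix1 ⟨k, hk⟩] at h1
    have e : ∀ c : Fin p → Fin m, idet (bot m i) (top c i) (mid k) =
        2 * (2 * ((c i : ℕ) : ℤ) + 1) - 4 * k := by
      intro c
      simp only [idet, bot, top, mid]
      ring
    rw [e, e] at h1
    exact h1
  rcases lt_trichotomy (a i : ℕ) (b i : ℕ) with h | h | h
  · exfalso
    have := (key (b i) (by omega)).mp (by linarith)
    have h2 : ((a i : ℕ) : ℤ) + 1 ≤ (b i : ℕ) := by exact_mod_cast h
    linarith
  · exact h
  · exfalso
    have := (key (a i) (by omega)).mpr (by linarith)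
    have h2 : ((b i : ℕ) : ℤ) + 1 ≤ (a i : ℕ) := by exact_mod_cast h
    linarith

/-- The planar configuration. -/
noncomputable def Z (a : Fin p → Fin m) : Finset Plane := (ZZ a).map ⟨P, P_injective⟩

theorem sign_cast (z : ℤ) : SignType.sign (z : ℝ) = SignType.sign z := by
  rcases lt_trichotomy z 0 with h | h | h
  · rw [sign_neg h, sign_neg (by exact_mod_cast h)]
  · subst h; simp
  · rw [sign_pos h, sign_pos (by exact_mod_cast h)]

theorem eq_of_sameOrderType (hp : 4 ≤ p) (hm : p < m) {a b : Fin p → Fin m}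
    (h : SameOrderType (Z a) (Z b)) : a = b := by
  classical
  obtain ⟨e, he⟩ := h
  have hmem : ∀ q : {q // q ∈ ZZ a}, P q ∈ Z a := fun q => Finset.mem_map_of_mem _ q.2
  have hex : ∀ q : {q // q ∈ ZZ a}, ∃ q', q' ∈ ZZ b ∧ P q' = (e ⟨P q, hmem q⟩ : Plane) := by
    intro q
    have := (e ⟨P q, hmem q⟩).2
    unfold Z at this
    rw [Finset.mem_map] at this
    obtain ⟨q', h1, h2⟩ := this
    exact ⟨q', h1, h2⟩
  choose g' hg1 hg2 using hex
  let g : ℤ × ℤ → ℤ × ℤ := fun q => if h : q ∈ ZZ a then g' ⟨q, h⟩ else q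
  have hg : ∀ (q : ℤ × ℤ) (h : q ∈ ZZ a), g q = g' ⟨q, h⟩ := fun q h => by simp [g, h]
  refine core hp hm a b g ?_ ?_ ?_
  · intro q hq
    rw [hg q hq]
    exact hg1 _
  · intro q hq q' hq' h
    rw [hg q hq, hg q' hq'] at h
    have h2 : (e ⟨P q, hmem ⟨q, hq⟩⟩ : Plane) = (e ⟨P q', hmem ⟨q', hq'⟩⟩ : Plane) := by
      rw [← hg2 ⟨q, hq⟩, ← hg2 ⟨q', hq'⟩, h]
    have h3 := e.injective (Subtype.ext h2)
    exact P_injective (congrArg Subtype.val h3)
  · intro u hu v hv w hw
    rw [hg u hu, hg v hv, hg w hw]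
    have := he ⟨P u, hmem ⟨u, hu⟩⟩ ⟨P v, hmem ⟨v, hv⟩⟩ ⟨P w, hmem ⟨w, hw⟩⟩
    rw [← hg2 ⟨u, hu⟩, ← hg2 ⟨v, hv⟩, ← hg2 ⟨w, hw⟩] at this
    simp only [orient] at this
    rw [det3_P, det3_P, sign_cast, sign_cast] at this
    exact this

/-! ### No six points in convex position -/

theorem collinear_row (a b c : ℤ × ℤ) (h1 : b.2 = a.2) (h2 : c.2 = a.2) :
    Collinear ℝ ({P a, P b, P c} : Set Plane) := by
  rw [collinear_iff_of_mem (p₀ := P a) (by simp)]
  refine ⟨P (1, 0), ?_⟩
  intro p hp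
  rcases hp with rfl | rfl | rfl
  · exact ⟨0, by simp⟩
  · refine ⟨(b.1 : ℝ) - a.1, ?_⟩
    ext i
    fin_cases i
    · simp
    · simp [h1]
  · refine ⟨(c.1 : ℝ) - a.1, ?_⟩
    ext i
    fin_cases i
    · simp
    · simp [h2]

theorem card_row_le {U : Finset (ℤ × ℤ)} (hU : ConvexPosition (U.map ⟨P, P_injective⟩)) (h : ℤ) :
    (U.filter fun q => q.2 = h).card ≤ 2 := by
  by_contra hcon
  rw [not_le, Finset.two_lt_card] at hcon
  obtain ⟨a, ha, b, hb, c, hc, hab, hac, hbc⟩ := hcon
  rw [Finset.mem_filter] at ha hb hc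
  exact hU.1 (P a) (Finset.mem_map_of_mem _ ha.1) (P b) (Finset.mem_map_of_mem _ hb.1) (P c)
    (Finset.mem_map_of_mem _ hc.1) (fun h => hab (P_injective h)) (fun h => hbc (P_injective h))
    (fun h => hac (P_injective h))
    (collinear_row a b c (hb.2.trans ha.2.symm) (hc.2.trans ha.2.symm))

/-- A point lying strictly between two points of the hull is not extreme. -/
theorem not_between {U : Finset Plane} {p x y : Plane}
    (hp : p ∈ (convexHull ℝ (U : Set Plane)).extremePoints ℝ)
    (hx : x ∈ convexHull ℝ (U : Set Plane)) (hy : y ∈ convexHull ℝ (U : Set Plane))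
    (h : p ∈ openSegment ℝ x y) : x = p :=
  (mem_extremePoints.mp hp).2 x hx y hy h |>.1

/-- a point of the middle row that is extreme lies strictly on the outer side of the midpoint of a
bottom and a top point, when another middle point is on the other side -/
theorem outer {U : Finset (ℤ × ℤ)} (hU : ConvexPosition (U.map ⟨P, P_injective⟩)) {b t r s : ℤ}
    (hb : (b, 0) ∈ U) (ht : (t, 2) ∈ U) (hr : (r, 1) ∈ U) (hs : (s, 1) ∈ U)
    (e : ℝ) (he : e = 1 ∨ e = -1) (hse : 0 < e * ((s : ℝ) - r)) :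
    e * (2 * (r : ℝ)) < e * ((b : ℝ) + t) := by
  have inU : ∀ q ∈ U, P q ∈ (U.map ⟨P, P_injective⟩) := fun q hq => Finset.mem_map_of_mem _ hq
  have inH : ∀ q ∈ U, P q ∈ convexHull ℝ ((U.map ⟨P, P_injective⟩ : Finset Plane) : Set Plane) :=
    fun q hq => subset_convexHull ℝ _ (Finset.mem_coe.mpr (inU q hq))
  have midH : (!₂[((b : ℝ) + t) / 2, 1] : Plane) ∈
        convexHull ℝ ((U.map ⟨P, P_injective⟩ : Finset Plane) : Set Plane) := by
    have := (convex_convexHull ℝ ((U.map ⟨P, P_injective⟩ : Finset Plane) : Set Plane))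
      (inH _ hb) (inH _ ht) (a := 1 / 2) (b := 1 / 2) (by norm_num) (by norm_num) (by norm_num)
    convert this using 1
    ext i
    fin_cases i
    · simp; ring
    · simp
  have exr := hU.2 _ (inU _ hr)
  by_contra hle
  rw [not_lt] at hle
  rcases hle.lt_or_eq with hlt | heq
  · -- `r` is strictly between the midpoint and `s`
    have := not_between exr midH (inH _ hs) (by
      rw [openSegment_eq_image]
      obtain ⟨L, hL⟩ : ∃ L : ℝ, L = ((b : ℝ) + t) / 2 := ⟨_, rfl⟩
      rw [← hL]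
      have h1 : 0 < e * ((r : ℝ) - L) := by rw [hL]; nlinarith
      have h2 : 0 < e * ((s : ℝ) - L) := by nlinarith
      have hne : ((s : ℝ) - L) ≠ 0 := by
        intro h0
        rw [h0] at h2
        simp at h2
      refine ⟨((r : ℝ) - L) / ((s : ℝ) - L), ⟨?_, ?_⟩, ?_⟩
      · rcases he with rfl | rfl
        · apply div_pos <;> linarith
        · apply div_pos_of_neg_of_neg <;> linarith
      · rcases he with rfl | rfl
        · rw [div_lt_one (by linarith)]; linarith
        · rw [div_lt_one_of_neg (by linarith)]; linarith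
      · have key : (1 - ((r : ℝ) - L) / ((s : ℝ) - L)) * L +
            ((r : ℝ) - L) / ((s : ℝ) - L) * s = r := by
          field_simp
          ring
        ext i
        fin_cases i
        · simpa using key
        · simp)
    have h3 := congrArg (fun v : Plane => v 0) this
    simp at h3
    have h4 : (b : ℝ) + t = 2 * r := by linarith
    rw [h4] at hlt
    exact lt_irrefl _ hlt
  · have heq' : (b : ℝ) + t = 2 * r := by
      rcases he with rfl | rfl <;> linarith
    have := not_between exr (inH _ hb) (inH _ ht) (by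
      rw [openSegment_eq_image]
      refine ⟨1 / 2, ⟨by norm_num, by norm_num⟩, ?_⟩
      ext i
      fin_cases i
      · simp
        linarith
      · simp)
    have h3 := congrArg (fun v : Plane => v 1) this
    simp at h3

theorem card_le_five (a : Fin p → Fin m) {U : Finset (ℤ × ℤ)} (hUN : U ⊆ ZZ a)
    (hU : ConvexPosition (U.map ⟨P, P_injective⟩)) : U.card ≤ 5 := by
  by_contra hcon
  rw [not_le] at hcon
  have h0 := card_row_le hU 0
  have h1 := card_row_le hU 1
  have h2 := card_row_le hU 2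
  have hsub : U ⊆ (U.filter fun q => q.2 = 0) ∪ (U.filter fun q => q.2 = 1) ∪
      (U.filter fun q => q.2 = 2) := by
    intro q hq
    have := ZZ_row (hUN hq)
    simp only [Finset.mem_union, Finset.mem_filter, hq, true_and]
    omega
  have hc : U.card ≤ (U.filter fun q => q.2 = 0).card + (U.filter fun q => q.2 = 1).card +
      (U.filter fun q => q.2 = 2).card :=
    (Finset.card_le_card hsub).trans ((Finset.card_union_le _ _).trans
      (Nat.add_le_add_right (Finset.card_union_le _ _) _))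
  have e0 : (U.filter fun q => q.2 = 0).card = 2 := by omega
  have e1 : (U.filter fun q => q.2 = 1).card = 2 := by omega
  have e2 : (U.filter fun q => q.2 = 2).card = 2 := by omega
  -- extract ordered pairs
  have ext : ∀ h : ℤ, (U.filter fun q => q.2 = h).card = 2 →
      ∃ x y : ℤ, x < y ∧ (x, h) ∈ U ∧ (y, h) ∈ U := by
    intro h he
    obtain ⟨a, b, hab, hs⟩ := Finset.card_eq_two.mp he
    have ha : a ∈ U.filter fun q => q.2 = h := by rw [hs]; simp
    have hb : b ∈ U.filter fun q => q.2 = h := by rw [hs]; simp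
    rw [Finset.mem_filter] at ha hb
    obtain ⟨a1, a2⟩ := a
    obtain ⟨b1, b2⟩ := b
    obtain ⟨ha, rfl⟩ := ha
    obtain ⟨hb, hb2⟩ := hb
    simp only at hb2
    subst hb2
    have hne : a1 ≠ b1 := fun h => hab (by rw [h])
    rcases lt_or_gt_of_ne hne with h | h
    · exact ⟨a1, b1, h, ha, hb⟩
    · exact ⟨b1, a1, h, hb, ha⟩
  obtain ⟨b1, b2, hb, mb1, mb2⟩ := ext 0 e0
  obtain ⟨t1, t2, ht, mt1, mt2⟩ := ext 2 e2
  obtain ⟨r1, s1, hrs, mr, ms⟩ := ext 1 e1
  have hrs' : (r1 : ℝ) < s1 := by exact_mod_cast hrs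
  have hleft := outer hU mb1 mt1 mr ms 1 (Or.inl rfl) (by linarith)
  have hright := outer hU mb2 mt2 ms mr (-1) (Or.inr rfl) (by linarith)
  have hleft' : 2 * r1 < b1 + t1 := by
    have : (2 * (r1 : ℝ)) < (b1 : ℝ) + t1 := by linarith
    exact_mod_cast this
  have hright' : b2 + t2 < 2 * s1 := by
    have : (b2 : ℝ) + t2 < 2 * (s1 : ℝ) := by linarith
    exact_mod_cast this
  obtain ⟨i, hi⟩ := ZZ_row0 (hUN mb1) rfl
  obtain ⟨i', hi'⟩ := ZZ_row0 (hUN mb2) rfl
  obtain ⟨k, hk⟩ := ZZ_row1 (hUN mr) rfl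
  obtain ⟨k', hk'⟩ := ZZ_row1 (hUN ms) rfl
  obtain ⟨j, hj⟩ := ZZ_row2 (hUN mt1) rfl
  obtain ⟨j', hj'⟩ := ZZ_row2 (hUN mt2) rfl
  have c1 : i' < i := by
    have : (bot m i).1 < (bot m i').1 := by rw [← hi, ← hi']; exact hb
    exact (bot_lt (m := m)).mp this
  have c2 : j < j' := by
    have : (top a j).1 < (top a j').1 := by rw [← hj, ← hj']; exact ht
    exact (top_lt (a := a)).mp this
  have v1 : b1 = (bot m i).1 := congrArg Prod.fst hi
  have v2 : b2 = (bot m i').1 := congrArg Prod.fst hi'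
  have v3 : r1 = (mid k).1 := congrArg Prod.fst hk
  have v4 : s1 = (mid k').1 := congrArg Prod.fst hk'
  have v5 : t1 = (top a j).1 := congrArg Prod.fst hj
  have v6 : t2 = (top a j').1 := congrArg Prod.fst hj'
  simp only [bot, mid, top] at v1 v2 v3 v4 v5 v6
  have a1 : ((a j : ℕ) : ℤ) + 1 ≤ m := by exact_mod_cast (a j).2
  have a2 : (0 : ℤ) ≤ ((a j' : ℕ) : ℤ) := by positivity
  have k1 : (0 : ℤ) ≤ ((k : ℕ) : ℤ) := by positivity
  have k2 : ((k' : ℕ) : ℤ) ≤ m := by exact_mod_cast Nat.lt_succ_iff.mp k'.2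
  have hm0 : (0 : ℤ) < 4 * ((m : ℤ) + 1) := by positivity
  have d1 : (i : ℕ) ≤ (j : ℕ) := by
    by_contra hcon
    have : ((j : ℕ) : ℤ) + 1 ≤ (i : ℕ) := by exact_mod_cast not_le.mp hcon
    have := mul_le_mul_of_nonneg_left this hm0.le
    nlinarith
  have d2 : (j' : ℕ) ≤ (i' : ℕ) := by
    by_contra hcon
    have : ((i' : ℕ) : ℤ) + 1 ≤ (j' : ℕ) := by exact_mod_cast not_le.mp hcon
    have := mul_le_mul_of_nonneg_left this hm0.le
    nlinarith
  have c1' : (i' : ℕ) < i := c1
  have c2' : (j : ℕ) < j' := c2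
  omega

theorem maxConvex_lt (a : Fin p → Fin m) : maxConvex (Z a) < 6 := by
  have : maxConvex (Z a) ≤ 5 := by
    unfold maxConvex
    apply csSup_le'
    rintro n ⟨U, hU, hc, rfl⟩
    obtain ⟨V, hV, rfl⟩ : ∃ V : Finset (ℤ × ℤ), V ⊆ ZZ a ∧ U = V.map ⟨P, P_injective⟩ := by
      unfold Z at hU
      exact Finset.subset_map_iff.mp hU
    rw [Finset.card_map]
    exact card_le_five a hV hc
  omega

theorem le_c (hp : 4 ≤ p) (hm : p < m) : m ^ p ≤ c 6 (2 * p + m + 2) := by
  let F : (Fin p → Fin m) → Quotient orderTypeSetoid := fun a => Quotient.mk _ (Z a)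
  have hF : Function.Injective F := by
    intro a b h
    exact eq_of_sameOrderType hp hm (Quotient.exact h)
  have hsub : Set.range F ⊆ classes 6 (2 * p + m + 2) := by
    rintro q ⟨a, rfl⟩
    refine ⟨Z a, ?_, maxConvex_lt a, rfl⟩
    unfold Z
    rw [Finset.card_map, card_ZZ]
  have h1 := Set.ncard_le_ncard hsub (classes_finite _ _)
  rw [← Set.image_univ, Set.ncard_image_of_injective _ hF, Set.ncard_univ,
    Nat.card_eq_fintype_card] at h1
  unfold c
  simpa using h1

end config

/-- `c_6(n) = exp(Θ(n log n))`: there are constants `a, b > 0` such that for all sufficiently large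
`n` the number of equivalence classes of `n`-point configurations without six points in convex
position is finite and lies between `exp(a n log n)` and `exp(b n log n)`. -/
theorem result : ∃ a b : ℝ, 0 < a ∧ 0 < b ∧ ∃ N : ℕ, ∀ n : ℕ, N ≤ n →
    (classes 6 n).Finite ∧ Real.exp (a * (n * Real.log n)) ≤ (c 6 n : ℝ) ∧
      (c 6 n : ℝ) ≤ Real.exp (b * (n * Real.log n)) := by
  refine ⟨1 / 16, 8, by norm_num, by norm_num, 64, ?_⟩
  intro n hn
  have hn' : (64 : ℝ) ≤ n := by exact_mod_cast hn
  have hn0 : (0 : ℝ) < n := by linarith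
  have hlog : 0 < Real.log n := Real.log_pos (by linarith)
  refine ⟨classes_finite 6 n, ?_, ?_⟩
  · obtain ⟨p, hp⟩ : ∃ p, p = n / 4 := ⟨_, rfl⟩
    obtain ⟨m, hm⟩ : ∃ m, m = n - 2 * p - 2 := ⟨_, rfl⟩
    have h1 : 2 * p + m + 2 = n := by omega
    have h2 := le_c (p := p) (m := m) (by omega) (by omega)
    rw [h1] at h2
    have h3 : ((m ^ p : ℕ) : ℝ) ≤ (c 6 n : ℝ) := by exact_mod_cast h2
    refine le_trans ?_ h3
    have hm1 : (n : ℝ) / 4 ≤ m := by
      have : n ≤ 4 * m := by omega
      have : (n : ℝ) ≤ 4 * m := by exact_mod_cast this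
      linarith
    have hp1 : (n : ℝ) / 8 ≤ p := by
      have : n ≤ 8 * p := by omega
      have : (n : ℝ) ≤ 8 * p := by exact_mod_cast this
      linarith
    have hm0 : (0 : ℝ) < m := by linarith
    have hlogm : Real.log n ≤ 2 * Real.log m := by
      have h4 : (n : ℝ) ≤ (m : ℝ) ^ 2 := by nlinarith
      have := Real.log_le_log hn0 h4
      rw [Real.log_pow] at this
      exact_mod_cast this
    push_cast
    rw [← Real.exp_log hm0, ← Real.exp_nat_mul]
    apply Real.exp_le_exp.mpr
    have h5 : (n : ℝ) / 8 * (Real.log n / 2) ≤ p * Real.log m :=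
      mul_le_mul hp1 (by linarith) (by linarith) (by positivity)
    linarith
  · have h1 : ((c 6 n : ℕ) : ℝ) ≤ (((4 * (n ^ 3 * 2) + 1) ^ (n * 2) : ℕ) : ℝ) := by
      exact_mod_cast c_le 6 n
    refine h1.trans ?_
    have h2 : 4 * (n ^ 3 * 2) + 1 ≤ n ^ 4 := by
      have : n ^ 4 = n * n ^ 3 := by ring
      rw [this]
      have h3 : 64 * n ^ 3 ≤ n * n ^ 3 := Nat.mul_le_mul_right _ hn
      have h4 : 1 ≤ n ^ 3 := Nat.one_le_pow _ _ (by omega)
      omega
    have h3 : (((4 * (n ^ 3 * 2) + 1) ^ (n * 2) : ℕ) : ℝ) ≤ (((n ^ 4) ^ (n * 2) : ℕ) : ℝ) := by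
      exact_mod_cast Nat.pow_le_pow_left h2 _
    refine h3.trans ?_
    push_cast
    have h4 : ((n : ℝ) ^ 4) ^ (n * 2) = Real.exp ((8 * n : ℕ) * Real.log n) := by
      rw [Real.exp_nat_mul, Real.exp_log hn0, ← pow_mul]
      congr 1
      ring
    rw [h4]
    apply Real.exp_le_exp.mpr
    push_cast
    linarith

end Pool.Agent.Results.MP_708b53_co.GrowthRate
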